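import Pool.Agent.H.MP_084a52_an.B

open Set Filter Topology MeasureTheory Metric Complex
open scoped ContDiff ENNReal Real ComplexConjugate

namespace Pool.Agent.H.MP_e277cf_an

lemma circ {F : ℂ → ℂ} {c : ℂ} {r : ℝ} (n : ℕ) (hr : 0 < r)
    (hd : DifferentiableOn ℂ F (closedBall c r)) :
    ∫ θ in Ioo (-π) π, F (c + r * exp (θ * I)) * conj (r * exp (θ * I)) ^ n =
      2 * π * r ^ (2 * n) * (iteratedDeriv n F c / n.factorial) := by
  have h := hd.circleIntegral_one_div_sub_center_pow_smul hr n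
  have per : Function.Periodic
      (fun θ : ℝ => F (c + r * exp (θ * I)) * conj (r * exp (θ * I)) ^ n) (2 * π) := fun θ => by
    simp [add_mul, exp_add]
  rw [← integral_Ioc_eq_integral_Ioo, ← intervalIntegral.integral_of_le (by linarith [Real.pi_pos])]
  have := per.intervalIntegral_add_eq (-π) 0
  rw [show -π + 2 * π = π by ring, zero_add] at this
  rw [this]
  have e : ∀ θ : ℝ, F (c + r * exp (θ * I)) * conj (r * exp (θ * I)) ^ n =
      (-I * r ^ (2 * n)) * (deriv (circleMap c r) θ •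
        ((1 / (circleMap c r θ - c) ^ (n + 1)) • F (circleMap c r θ))) := fun θ => by
    have h0 : (r : ℂ) ≠ 0 := by exact_mod_cast hr.ne'
    have h1 := exp_ne_zero (θ * I)
    have h2 : conj (exp (θ * I)) = (exp (θ * I))⁻¹ := by rw [← exp_conj, ← exp_neg]; simp
    simp only [deriv_circleMap, circleMap, map_mul, conj_ofReal, h2, smul_eq_mul, zero_add,
      add_sub_cancel_left, mul_pow, inv_pow]
    field_simp
    ring_nf
    simp
  simp_rw [e]
  rw [intervalIntegral.integral_const_mul]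
  change _ * (∮ z in C(c, r), (1 / (z - c) ^ (n + 1)) • F z) = _
  rw [h, smul_eq_mul]
  linear_combination (-2 * π * r ^ (2 * n) * (iteratedDeriv n F c / n.factorial)) * I_mul_I

lemma disc {F : ℂ → ℂ} {c : ℂ} {R : ℝ} (n : ℕ) (hR : 0 < R) (hd : DifferentiableOn ℂ F (ball c R))
    (hi : IntegrableOn (fun z => F z * conj (z - c) ^ n) (ball c R)) :
    ∫ z in ball c R, F z * conj (z - c) ^ n =
      π * R ^ (2 * n + 2) / (n + 1) * (iteratedDeriv n F c / n.factorial) := by
  set G : ℂ → ℂ := (ball c R).indicator fun z => F z * conj (z - c) ^ n with hG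
  have iG : Integrable (fun z => G (c + z)) :=
    ((integrable_indicator_iff measurableSet_ball).2 hi).comp_add_left c
  have i2 : IntegrableOn (fun p : ℝ × ℝ => p.1 • G (c + Complex.polarCoord.symm p))
      polarCoord.target := by
    have h1 := (integrableOn_image_iff_integrableOn_abs_det_fderiv_smul volume
      polarCoord.open_target.measurableSet
      (fun p _ => (hasFDerivAt_polarCoord_symm p).hasFDerivWithinAt) polarCoord.symm.injOn
      (fun p => G (c + measurableEquivRealProd.symm p))).1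
      (((volume_preserving_equiv_real_prod.symm).integrable_comp_emb
        measurableEquivRealProd.symm.measurableEmbedding).2 iG).integrableOn
    refine h1.congr_fun (fun p hp => ?_) polarCoord.open_target.measurableSet
    simp only [det_fderivPolarCoordSymm, abs_of_pos (show 0 < p.1 from hp.1)]
    rfl
  rw [← integral_indicator measurableSet_ball, ← hG, ← integral_add_left_eq_self _ c,
    ← Complex.integral_comp_polarCoord_symm, polarCoord_target]
  rw [polarCoord_target] at i2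
  rw [Measure.volume_eq_prod, setIntegral_prod _ i2]
  have e : ∀ r ∈ Ioi (0 : ℝ), ∫ θ in Ioo (-π) π, r • G (c + Complex.polarCoord.symm (r, θ)) =
      (Ioo 0 R).indicator (fun r : ℝ => ((r ^ (2 * n + 1) : ℝ) : ℂ) *
        (2 * π * (iteratedDeriv n F c / n.factorial))) r := fun r hr => by
    have e1 : ∀ θ : ℝ, Complex.polarCoord.symm (r, θ) = r * exp (θ * I) := fun θ => by
      simp [exp_mul_I]
    have e2 : ∀ θ : ℝ, c + r * exp (θ * I) ∈ ball c R ↔ r < R := fun θ => by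
      simp [abs_of_pos (show 0 < r from hr)]
    simp only [e1, hG]
    by_cases h : r < R
    · simp only [indicator_of_mem ((e2 _).2 h), add_sub_cancel_left,
        indicator_of_mem (show r ∈ Ioo 0 R from ⟨hr, h⟩)]
      rw [integral_smul, circ n hr (hd.mono (closedBall_subset_ball h))]
      simp; ring
    · simp only [indicator_of_notMem (mt (e2 _).1 h),
        indicator_of_notMem (show r ∉ Ioo 0 R from fun k => h k.2)]
      simp
  rw [setIntegral_congr_fun measurableSet_Ioi e, setIntegral_indicator measurableSet_Ioo,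
    inter_eq_right.2 Ioo_subset_Ioi_self, integral_mul_const, integral_complex_ofReal,
    ← integral_Ioc_eq_integral_Ioo, ← intervalIntegral.integral_of_le hR.le, integral_pow]
  push_cast
  have : (n : ℂ) + 1 ≠ 0 := by exact_mod_cast n.succ_ne_zero
  have : 2 * (n : ℂ) + 1 + 1 ≠ 0 := by
    rw [show 2 * (n : ℂ) + 1 + 1 = 2 * (n + 1) by ring]; exact mul_ne_zero two_ne_zero this
  field_simp
  ring

/-- twice punctured disc -/
def W (R : ℝ) : Set ℂ := ball 0 R \ {0, 1 / 2}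

lemma fin2 : ({0, 1 / 2} : Set ℂ).Finite := toFinite _
lemma W_open (R : ℝ) : IsOpen (W R) := isOpen_ball.sdiff fin2.isClosed
lemma W_ae (R : ℝ) : W R =ᵐ[volume] ball (0 : ℂ) R :=
  sdiff_ae_eq_self.2 (measure_mono_null inter_subset_right (fin2.measure_zero _))

lemma near_W {R : ℝ} (hR : 1 ≤ R) {p : ℂ} (hp : p ∈ ({0, 1 / 2} : Set ℂ)) :
    ball p (1 / 2) \ {p} ⊆ W R := by
  rintro z ⟨h1, h2⟩
  have n2 : ‖(1 / 2 : ℂ)‖ = 1 / 2 := by simp
  rw [mem_ball, dist_eq_norm] at h1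
  rcases hp with rfl | rfl
  · refine ⟨mem_ball_zero_iff.2 (by rw [sub_zero] at h1; linarith), ?_⟩
    rintro (rfl | rfl)
    · exact h2 rfl
    · rw [sub_zero, n2] at h1; linarith
  · refine ⟨mem_ball_zero_iff.2 (by linarith [norm_sub_norm_le z (1 / 2)]), ?_⟩
    rintro (rfl | rfl)
    · rw [zero_sub, norm_neg, n2] at h1; linarith
    · exact h2 rfl

lemma ev_W {R : ℝ} (hR : 1 ≤ R) {p : ℂ} (hp : p ∈ ({0, 1 / 2} : Set ℂ)) : ∀ᶠ z in 𝓝[≠] p, z ∈ W R :=
  mem_of_superset (sdiff_mem_nhdsWithin_compl (ball_mem_nhds p one_half_pos) _) (near_W hR hp)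

lemma lo (p : ℂ) {g : ℂ → ℂ} {C : ℝ} (h : ∀ᶠ z in 𝓝[≠] p, ‖g z‖ ≤ C) :
    g =o[𝓝[≠] p] fun z => (z - p)⁻¹ := by
  refine Asymptotics.IsBigO.trans_isLittleO (g := fun _ => (1 : ℝ)) (Asymptotics.IsBigO.of_bound C
    (h.mono fun z hz => by simpa using hz)) ?_
  rw [Asymptotics.isLittleO_one_left_iff]
  simpa using! tendsto_inv_nhdsGT_zero.comp (tendsto_norm_sub_self_nhdsNE p)

lemma rem {R : ℝ} (hR : 1 ≤ R) {f : ℂ → ℂ} (hd : DifferentiableOn ℂ f (W R))
    (ho : ∀ p ∈ ({0, 1 / 2} : Set ℂ), f =o[𝓝[≠] p] fun z => (z - p)⁻¹) :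
    ∃ F, DifferentiableOn ℂ F (ball 0 R) ∧ EqOn F f (W R) := by
  have k : ∀ p (g : ℂ → ℂ), g =o[𝓝[≠] p] (fun z => (z - p)⁻¹) →
      (fun z => g z - g p) =o[𝓝[≠] p] fun z => (z - p)⁻¹ := fun p g hg =>
    hg.sub (lo p (.of_forall fun _ => le_rfl))
  have h0 : ball (0 : ℂ) R \ {1 / 2} ∈ 𝓝 (0 : ℂ) :=
    (isOpen_ball.sdiff isClosed_singleton).mem_nhds ⟨mem_ball_self (by linarith), by norm_num⟩
  have h1 : ball (0 : ℂ) R ∈ 𝓝 (1 / 2 : ℂ) :=
    isOpen_ball.mem_nhds (mem_ball_zero_iff.2 (by simp; linarith))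
  have d1 := differentiableOn_update_limUnder_of_isLittleO h0 (hd.mono fun z hz =>
    ⟨hz.1.1, fun e => e.elim hz.2 hz.1.2⟩) (k _ _ (ho 0 (.inl rfl)))
  have d2 := differentiableOn_update_limUnder_of_isLittleO h1 d1 (k _ _ ((ho _ (.inr rfl)).congr'
    (mem_nhdsWithin_of_mem_nhds (mem_of_superset (isOpen_ne.mem_nhds (show (1 / 2 : ℂ) ≠ 0 by norm_num))
      fun z hz => (Function.update_of_ne hz _ _).symm)) EventuallyEq.rfl))
  refine ⟨_, d2, fun z hz => ?_⟩
  rw [Function.update_of_ne fun e => hz.2 (.inr e), Function.update_of_ne fun e => hz.2 (.inl e)]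

lemma rem_bdd {R C : ℝ} (hR : 1 ≤ R) {f : ℂ → ℂ} (hd : DifferentiableOn ℂ f (W R))
    (hb : ∀ z ∈ W R, ‖f z‖ ≤ C) : ∃ F, DifferentiableOn ℂ F (ball 0 R) ∧ EqOn F f (W R) ∧
      ∀ z ∈ ball 0 R, ‖F z‖ ≤ C := by
  obtain ⟨F, h1, h2⟩ := rem hR hd fun p hp => lo p ((ev_W hR hp).mono hb)
  refine ⟨F, h1, h2, fun z hz => ?_⟩
  by_cases hp : z ∈ ({0, 1 / 2} : Set ℂ)
  · exact le_of_tendsto (((h1.continuousOn.continuousAt (isOpen_ball.mem_nhds hz)).norm.tendsto).mono_left
      (nhdsWithin_le_nhds (s := {z}ᶜ))) ((ev_W hR hp).mono fun w hw => by rw [h2 hw]; exact hb w hw)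
  · rw [h2 ⟨hz, hp⟩]; exact hb z ⟨hz, hp⟩

lemma rem_L2 {f : ℂ → ℂ} (hd : DifferentiableOn ℂ f (W 1))
    (hi : IntegrableOn (fun z => ‖f z‖ ^ 2) (W 1)) :
    ∃ F, DifferentiableOn ℂ F (ball 0 1) ∧ EqOn F f (W 1) := by
  refine rem le_rfl hd fun p hp => ?_
  rw [Asymptotics.isLittleO_iff]
  intro ε hε
  have t1 : Tendsto (fun z : ℂ => (volume.restrict (W 1)) (ball z ‖z - p‖)) (𝓝[≠] p) (𝓝 0) := by
    refine tendsto_of_tendsto_of_tendsto_of_le_of_le tendsto_const_nhds ?_ (fun _ => zero_le)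
      fun z => Measure.restrict_apply_le _ _
    simp only [Complex.volume_ball]
    have : Tendsto (fun z : ℂ => ENNReal.ofReal ‖z - p‖ ^ 2 * NNReal.pi) (𝓝 p)
        (𝓝 (ENNReal.ofReal ‖p - p‖ ^ 2 * NNReal.pi)) :=
      ENNReal.Tendsto.mul_const (ENNReal.Tendsto.pow
        (ENNReal.tendsto_ofReal (Continuous.tendsto (by fun_prop) p))) (.inr ENNReal.coe_ne_top)
    simpa using this.mono_left nhdsWithin_le_nhds
  have t2 := hi.tendsto_setIntegral_nhds_zero t1
  have t3 : ∀ᶠ z in 𝓝[≠] p, z ∈ ball p (1 / 4) := mem_nhdsWithin_of_mem_nhds (ball_mem_nhds p (by norm_num))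
  filter_upwards [t2.eventually (gt_mem_nhds (show 0 < π * ε ^ 2 by positivity)), t3,
    self_mem_nhdsWithin] with z h1 h2 h3
  have r0 : 0 < ‖z - p‖ := norm_pos_iff.2 (sub_ne_zero.2 h3)
  have sub : ball z ‖z - p‖ ⊆ W 1 := fun w hw => near_W le_rfl hp ⟨by
    rw [mem_ball, dist_eq_norm] at *
    linarith [norm_sub_le_norm_sub_add_norm_sub w z p], fun e => by
      rw [mem_singleton_iff.1 e, mem_ball, dist_eq_norm, norm_sub_rev] at hw
      exact lt_irrefl _ hw⟩
  rw [Measure.restrict_restrict measurableSet_ball, inter_eq_left.2 sub] at h1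
  have d2 : DifferentiableOn ℂ (fun w => f w ^ 2) (ball z ‖z - p‖) := (hd.mono sub).pow 2
  have := disc 0 r0 d2 (by
    simp only [pow_zero, mul_one]
    exact (hi.mono_set sub).mono' (d2.continuousOn.aestronglyMeasurable measurableSet_ball)
      (.of_forall fun w => by simp))
  simp only [pow_zero, mul_one, mul_zero, zero_add, Nat.cast_zero, div_one, iteratedDeriv_zero,
    Nat.factorial_zero, Nat.cast_one] at this
  have h4 := norm_integral_le_integral_norm (μ := volume.restrict (ball z ‖z - p‖)) fun w => f w ^ 2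
  rw [this] at h4
  simp only [norm_mul, norm_pow, norm_real, Real.norm_eq_abs, abs_of_pos Real.pi_pos,
    abs_norm] at h4
  rw [norm_inv, ← div_eq_mul_inv, le_div_iff₀ r0]
  refine le_of_lt (lt_of_pow_lt_pow_left₀ 2 hε.le ?_)
  nlinarith [Real.pi_pos]

lemma W_conn {R : ℝ} (hR : 0 < R) : IsConnected (W R) := by
  let j := OpenPartialHomeomorph.univBall (0 : ℂ) R
  have s : j.source = univ := OpenPartialHomeomorph.univBall_source _ _
  have t : j.target = ball 0 R := OpenPartialHomeomorph.univBall_target _ hR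
  have i : Function.Injective j := injOn_univ.1 (s ▸ j.injOn)
  have c : (j ⁻¹' {0, 1 / 2}).Countable := fin2.countable.preimage i
  have := (c.isConnected_compl_of_one_lt_rank (by simp)).image j
    (j.continuousOn.mono (s ▸ subset_univ _))
  convert this
  ext z
  constructor
  · intro hz
    have e := j.right_inv (t ▸ hz.1)
    exact ⟨j.symm z, fun h => hz.2 (e ▸ h), e⟩
  · rintro ⟨x, hx, rfl⟩
    exact ⟨t ▸ j.map_source (s ▸ mem_univ x), hx⟩

theorem noconf {R : ℝ} (hR : 1 < R) {h k : ℂ → ℂ} (m1 : MapsTo h (W 1) (W R))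
    (m2 : MapsTo k (W R) (W 1)) (li : ∀ w ∈ W R, h (k w) = w) (d1 : DifferentiableOn ℂ h (W 1))
    (d2 : DifferentiableOn ℂ k (W R)) : False := by
  obtain ⟨H, H1, H2, -⟩ := rem_bdd le_rfl d1 fun z hz => (mem_ball_zero_iff.1 (m1 hz).1).le
  obtain ⟨K, K1, K2, K3⟩ := rem_bdd hR.le d2 fun z hz => (mem_ball_zero_iff.1 (m2 hz).1).le
  have pm : ∀ p ∈ ({0, 1 / 2} : Set ℂ), p ∈ ball (0 : ℂ) R := by
    rintro p (rfl | rfl) <;> simp <;> linarith
  have a : ∀ p ∈ ({0, 1 / 2} : Set ℂ), K p ∈ ({0, 1 / 2} : Set ℂ) ∧ H (K p) = p := fun p hp => by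
    have b : K p ∈ ball (0 : ℂ) 1 := by
      by_contra hc
      obtain ⟨w, hw⟩ := (ev_W hR.le hp).exists
      have := norm_eqOn_of_isPreconnected_of_isMaxOn (convex_ball _ _).isPreconnected isOpen_ball K1
        (pm p hp) (fun z hz => (K3 z hz).trans (not_lt.1 (mt mem_ball_zero_iff.2 hc))) hw.1
      have e := mem_ball_zero_iff.1 (m2 hw).1
      rw [← K2 hw] at e
      exact hc (mem_ball_zero_iff.2 ((show ‖K w‖ = ‖K p‖ from this) ▸ e))
    have c : H (K p) = p := by
      have t1 : ContinuousAt (fun z => H (K z)) p :=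
        (H1.continuousOn.continuousAt (isOpen_ball.mem_nhds b)).comp
          (K1.continuousOn.continuousAt (isOpen_ball.mem_nhds (pm p hp)))
      refine tendsto_nhds_unique (t1.tendsto.mono_left (nhdsWithin_le_nhds (s := {p}ᶜ)))
        ((tendsto_id.mono_left nhdsWithin_le_nhds).congr' ((ev_W hR.le hp).mono fun w hw => ?_))
      simp only [id, K2 hw, H2 (m2 hw), li w hw]
    refine ⟨by_contra fun hc => ?_, c⟩
    have := (m1 ⟨b, hc⟩).2
    rw [← H2 ⟨b, hc⟩, c] at this
    exact this hp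
  have a0 := a 0 (.inl rfl)
  have a1 := a _ (.inr rfl)
  have ne : K 0 ≠ K (1 / 2) := fun e => by
    have := a0.2.symm.trans (e ▸ a1.2)
    norm_num at this
  have f2 : K (K 0) = 0 ∧ K (K (1 / 2)) = 1 / 2 := by
    rcases a0.1 with e | e <;> rcases a1.1 with e' | e'
    · exact (ne (e.trans e'.symm)).elim
    · rw [e, mem_singleton_iff.1 e']; exact ⟨e, e'⟩
    · rw [mem_singleton_iff.1 e, e']; exact ⟨rfl, e⟩
    · exact (ne (e.trans e'.symm)).elim
  have mK : MapsTo K (ball 0 R) (ball 0 R) := fun z hz => mem_ball_zero_iff.2 ((K3 z hz).trans_lt hR)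
  have := dist_le_div_mul_dist_of_mapsTo_ball (f := K ∘ K) (R₂ := 1) (K1.comp K1 mK)
    (fun z hz => by simpa [f2.1] using K3 _ (mK hz)) (pm _ (.inr rfl))
  simp only [Function.comp, f2.1, f2.2, dist_zero_right] at this
  have h2 : 1 / R < 1 := (div_lt_one (by linarith)).2 hR
  have h3 : 0 < ‖(1 / 2 : ℂ)‖ := by simp
  nlinarith

end Pool.Agent.H.MP_e277cf_an
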