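import Mathlib

open Set MeasureTheory Complex
open scoped ContDiff ENNReal

namespace Pool.Agent.H.MP_e277cf_an.Defs

/-- a domain whose complement in the Riemann sphere has exactly k components -/
def KConn (k : ℕ) (Ω : Set ℂ) : Prop :=
  IsOpen Ω ∧ IsConnected Ω ∧
    Nat.card (ConnectedComponents ↥((((↑) : ℂ → OnePoint ℂ) '' Ω)ᶜ)) = k

/-- h lies in the Sobolev class W12 with weak differential A -/
def W12 (Ω : Set ℂ) (h : ℂ → ℂ) (A : ℂ → ℂ →L[ℝ] ℂ) : Prop :=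
  MemLp h 2 (volume.restrict Ω) ∧ MemLp A 2 (volume.restrict Ω) ∧
  ∀ φ : ℂ → ℝ, ContDiff ℝ ∞ φ → HasCompactSupport φ → tsupport φ ⊆ Ω → ∀ v,
    ∫ x in Ω, fderiv ℝ φ x v • h x = -∫ x in Ω, φ x • A x v

/-- h is a homeomorphism of one domain onto the other -/
def Hom (Ω Ω' : Set ℂ) (h : ℂ → ℂ) : Prop :=
  ∃ g : ℂ → ℂ, MapsTo h Ω Ω' ∧ MapsTo g Ω' Ω ∧ InvOn g h Ω Ω' ∧ ContinuousOn h Ω ∧
    ContinuousOn g Ω'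

/-- h is a diffeomorphism of class C1 of one domain onto the other -/
def Diffeo (Ω Ω' : Set ℂ) (h : ℂ → ℂ) : Prop :=
  ∃ g : ℂ → ℂ, MapsTo h Ω Ω' ∧ MapsTo g Ω' Ω ∧ InvOn g h Ω Ω' ∧ ContDiffOn ℝ 1 h Ω ∧
    ContDiffOn ℝ 1 g Ω'

/-- the Dirichlet energy of a differential -/
noncomputable def En (Ω : Set ℂ) (A : ℂ → ℂ →L[ℝ] ℂ) : ℝ≥0∞ :=
  ∫⁻ x in Ω, ENNReal.ofReal (‖A x 1‖ ^ 2 + ‖A x I‖ ^ 2)

/-- the infimum of the energy over Sobolev homeomorphisms -/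
noncomputable def EH (Ω Ω' : Set ℂ) : ℝ≥0∞ :=
  ⨅ (h : ℂ → ℂ) (A : ℂ → ℂ →L[ℝ] ℂ) (_ : Hom Ω Ω' h ∧ W12 Ω h A), En Ω A

end Pool.Agent.H.MP_e277cf_an.Defs
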