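import Pool.Agent.H.MP_e277cf_an.A
import Pool.Agent.H.MP_e277cf_an.Defs

open Set Filter Topology MeasureTheory Metric Complex
open scoped ContDiff ENNReal Real ComplexConjugate NNReal

namespace Pool.Agent.H.MP_e277cf_an
open Defs Pool.Agent.H.MP_084a52_an

noncomputable def en (A : ℂ →L[ℝ] ℂ) : ℝ := ‖A 1‖ ^ 2 + ‖A I‖ ^ 2
noncomputable def uu (A : ℂ →L[ℝ] ℂ) : ℂ := (A 1 - I * A I) / 2
noncomputable def vv (A : ℂ →L[ℝ] ℂ) : ℂ := (conj (A 1) - I * conj (A I)) / 2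

lemma en0 (A : ℂ →L[ℝ] ℂ) : 0 ≤ en A := by unfold en; positivity
lemma en_c : Continuous en := by unfold en; fun_prop

lemma app (A : ℂ →L[ℝ] ℂ) (z : ℂ) : A z = z.re * A 1 + z.im * A I := by
  conv_lhs => rw [← re_add_im z]
  rw [map_add, show (z.re : ℂ) = z.re • (1 : ℂ) by simp, show (z.im : ℂ) * I = z.im • I by simp,
    map_smul, map_smul]
  simp

lemma app2 (A : ℂ →L[ℝ] ℂ) (z : ℂ) : A z = uu A * z + conj (vv A) * conj z := by
  rw [app]
  apply Complex.ext <;> simp [uu, vv, map_ofNat] <;> ring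

lemma en_eq (A : ℂ →L[ℝ] ℂ) : en A = 2 * (‖uu A‖ ^ 2 + ‖vv A‖ ^ 2) := by
  simp only [en, ← normSq_eq_norm_sq]
  simp [uu, vv, normSq_apply]; ring

lemma en_comp (A P : ℂ →L[ℝ] ℂ) {p q : ℂ} (h : ∀ w, P w = p * w + q * conj w) :
    en (A.comp P) = en A * (‖p‖ ^ 2 + ‖q‖ ^ 2) + 8 * (uu A * vv A * (p * q)).re := by
  simp only [en, ← normSq_eq_norm_sq, ContinuousLinearMap.comp_apply, h]
  rw [app A (p * 1 + q * conj 1), app A (p * I + q * conj I)]
  simp [uu, vv, normSq_apply]; ring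

lemma det_pq (P : ℂ →L[ℝ] ℂ) {p q : ℂ} (h : ∀ w, P w = p * w + q * conj w) :
    P.det = ‖p‖ ^ 2 - ‖q‖ ^ 2 := by
  simp only [det_eq, ← normSq_eq_norm_sq, h]
  simp [normSq_apply]; ring

lemma nrm_le (A : ℂ →L[ℝ] ℂ) : ‖A‖ ^ 2 ≤ 2 * en A := by
  have : ‖A‖ ≤ ‖A 1‖ + ‖A I‖ := A.opNorm_le_bound (by positivity) fun z => by
    rw [app]
    refine (norm_add_le _ _).trans ?_
    rw [norm_mul, norm_mul, norm_real, norm_real, add_mul, mul_comm (‖A 1‖), mul_comm (‖A I‖)]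
    gcongr
    exacts [abs_re_le_norm z, abs_im_le_norm z]
  have h2 := pow_le_pow_left₀ (norm_nonneg _) this 2
  unfold en
  nlinarith [sq_nonneg (‖A 1‖ - ‖A I‖)]

lemma W_fin (R : ℝ) : volume (W R) < ⊤ := (measure_mono sdiff_subset).trans_lt measure_ball_lt_top

lemma En_eq {f : ℂ → ℂ} (hi : IntegrableOn (fun z => en (fderiv ℝ f z)) (W 1)) :
    En (W 1) (fderiv ℝ f) = ENNReal.ofReal (∫ z in W 1, en (fderiv ℝ f z)) :=
  (ofReal_integral_eq_lintegral_ofReal hi (.of_forall fun _ => en0 _)).symm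

lemma comp_le {R : ℝ} {f : ℂ → ℂ} (hf : ContDiffOn ℝ 1 f (W 1)) (hh : Hom (W 1) (W R) f)
    (hi : IntegrableOn (fun z => en (fderiv ℝ f z)) (W 1)) :
    EH (W 1) (W R) ≤ ENNReal.ofReal (∫ z in W 1, en (fderiv ℝ f z)) := by
  have mo := (W_open 1).measurableSet
  have c := hf.continuousOn_fderiv_of_isOpen (W_open 1) le_rfl
  have : IsFiniteMeasure (volume.restrict (W 1)) := ⟨by simpa using W_fin 1⟩
  rw [← En_eq hi]
  refine iInf_le_of_le f (iInf_le_of_le (fderiv ℝ f) (iInf_le_of_le ⟨hh, ?_, ?_,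
    fun φ h1 h2 h3 => wk (W_open 1) hf h1 h2 h3⟩ le_rfl))
  · obtain ⟨g, m, -⟩ := hh
    exact MemLp.of_bound (hf.continuousOn.aestronglyMeasurable mo) R
      ((ae_restrict_mem mo).mono fun z hz => (mem_ball_zero_iff.1 (m hz).1).le)
  · rw [memLp_two_iff_integrable_sq_norm (c.aestronglyMeasurable mo)]
    exact (hi.const_mul 2).mono' ((c.norm.pow 2).aestronglyMeasurable mo)
      (.of_forall fun z => by rw [Real.norm_eq_abs, abs_of_nonneg (by positivity)]; exact nrm_le _)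

lemma near {R c : ℝ} (hc : c < 1) {f p q : ℂ → ℂ} {P : ℂ → ℂ →L[ℝ] ℂ}
    (hd : ∀ z, HasFDerivAt f (P z) z) (hP : ∀ z w, P z w = p z * w + q z * conj w)
    (hb : ∀ z ∈ ball (0 : ℂ) 1, ‖p z - 1‖ + ‖q z‖ ≤ c)
    (hn : ∀ z ∈ closedBall (0 : ℂ) 1, ‖f z‖ < R ↔ ‖z‖ < 1) (h0 : f 0 = 0) (h1 : f (1 / 2) = 1 / 2) :
    Hom (W 1) (W R) f := by
  have c0 : 0 ≤ c := le_trans (by positivity) (hb 0 (mem_ball_self one_pos))
  have cf : Continuous f := continuous_iff_continuousAt.2 fun z => (hd z).continuousAt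
  have ap : ApproximatesLinearOn f ((ContinuousLinearEquiv.refl ℝ ℂ : ℂ ≃L[ℝ] ℂ) : ℂ →L[ℝ] ℂ)
      (ball 0 1) ⟨c, c0⟩ := by
    rw [ApproximatesLinearOn.approximatesLinearOn_iff_lipschitzOnWith]
    refine (convex_ball 0 1).lipschitzOnWith_of_nnnorm_hasFDerivWithin_le
      (f' := fun z => P z - ContinuousLinearMap.id ℝ ℂ)
      (fun z _ => ((hd z).sub (hasFDerivAt_id z)).hasFDerivWithinAt) fun z hz => ?_
    refine ContinuousLinearMap.opNorm_le_bound _ c0 fun w => ?_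
    rw [sub_apply, hP, ContinuousLinearMap.id_apply,
      show p z * w + q z * conj w - w = (p z - 1) * w + q z * conj w by ring]
    refine (norm_add_le _ _).trans ?_
    rw [norm_mul, norm_mul, norm_conj, ← add_mul]
    exact mul_le_mul_of_nonneg_right (hb z hz) (norm_nonneg _)
  have hc' : Subsingleton ℂ ∨ (⟨c, c0⟩ : ℝ≥0) <
      ‖(((ContinuousLinearEquiv.refl ℝ ℂ).symm : ℂ ≃L[ℝ] ℂ) : ℂ →L[ℝ] ℂ)‖₊⁻¹ := by
    right
    have : (⟨c, c0⟩ : ℝ≥0) < 1 := hc
    simpa using! this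
  let e := ap.toOpenPartialHomeomorph f (ball 0 1) hc' isOpen_ball
  have es : e.source = ball 0 1 := rfl
  have ef : ∀ z, e z = f z := fun _ => rfl
  have m : ∀ z ∈ ball (0 : ℂ) 1, f z ∈ ball (0 : ℂ) R := fun z hz =>
    mem_ball_zero_iff.2 ((hn z (ball_subset_closedBall hz)).2 (mem_ball_zero_iff.1 hz))
  have et : ball 0 R ⊆ e.target := by
    refine (convex_ball 0 R).isPreconnected.subset_of_closure_inter_subset e.open_target
      ⟨f 0, m 0 (mem_ball_self one_pos), e.map_source (mem_ball_self one_pos)⟩ ?_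
    rintro w ⟨w1, w2⟩
    have : e.target ⊆ f '' closedBall 0 1 := image_mono ball_subset_closedBall
    obtain ⟨z, z1, rfl⟩ := closure_minimal this ((isCompact_closedBall 0 1).image cf).isClosed w1
    exact e.map_source (mem_ball_zero_iff.2 ((hn z z1).1 (mem_ball_zero_iff.1 w2)))
  have b0 : (0 : ℂ) ∈ ball (0 : ℂ) 1 := mem_ball_self one_pos
  have b1 : (1 / 2 : ℂ) ∈ ball (0 : ℂ) 1 := by simp; norm_num
  refine ⟨e.symm, fun z hz => ⟨m z hz.1, ?_⟩, fun w hw => ⟨e.map_target (et hw.1), ?_⟩,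
    ⟨fun z hz => e.left_inv hz.1, fun w hw => e.right_inv (et hw.1)⟩, cf.continuousOn,
    e.continuousOn_symm.mono fun w hw => et hw.1⟩
  · rintro (k | k)
    · exact hz.2 (.inl (e.injOn hz.1 b0 (k.trans h0.symm)))
    · exact hz.2 (.inr (e.injOn hz.1 b1 ((mem_singleton_iff.1 k).trans h1.symm)))
  · have := e.right_inv (et hw.1)
    rintro (k | k)
    · exact hw.2 (.inl (by rw [← this, k, ef, h0]))
    · exact hw.2 (.inr (by rw [← this, mem_singleton_iff.1 k, ef, h1]; rfl))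

theorem EH_fin : EH (W 1) (W (5 / 4)) < ⊤ := by
  let f : ℂ → ℂ := fun z => z * (11 + 4 * (z * conj z)) / 12
  have cd : ContDiff ℝ 1 f := by
    have : ContDiff ℝ 1 (fun z : ℂ => conj z) := conjCLE.contDiff
    fun_prop
  have hP : ∀ z w, fderiv ℝ f z w = (11 + 8 * (z * conj z)) / 12 * w + z ^ 2 / 3 * conj w :=
    fun z w => by
      have := (((hasFDerivAt_id z).mul ((((hasFDerivAt_id z).mul
        (conjCLE.hasFDerivAt (x := z))).const_mul 4).const_add 11)).const_mul (1 / 12 : ℂ))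
      rw [(this.congr_of_eventuallyEq (f₁ := f) (.of_forall fun z => by simp [f]; ring)).fderiv]
      simp; ring
  have hh : Hom (W 1) (W (5 / 4)) f := by
    refine near (c := 11 / 12) (by norm_num) (fun z => (cd.differentiable one_ne_zero z).hasFDerivAt)
      hP (fun z hz => ?_) (fun z hz => ?_) (by simp [f]) (by simp [f, map_ofNat]; norm_num)
    · have h1 := mem_ball_zero_iff.1 hz
      have h2 : ‖z‖ ^ 2 < 1 := by nlinarith [norm_nonneg z]
      rw [mul_conj, normSq_eq_norm_sq, show ((11 + 8 * ((‖z‖ ^ 2 : ℝ) : ℂ)) / 12 - 1) =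
        ((8 * ‖z‖ ^ 2 - 1) / 12 : ℝ) by push_cast; ring, norm_real, Real.norm_eq_abs]
      have : |(8 * ‖z‖ ^ 2 - 1) / 12| ≤ 7 / 12 := abs_le.2 ⟨by nlinarith [sq_nonneg ‖z‖], by linarith⟩
      simp only [norm_div, norm_pow, norm_ofNat]
      linarith
    · have h1 := mem_closedBall_zero_iff.1 hz
      have e : ‖f z‖ = ‖z‖ * (11 + 4 * ‖z‖ ^ 2) / 12 := by
        simp only [f]
        rw [mul_conj, normSq_eq_norm_sq, show (11 + 4 * ((‖z‖ ^ 2 : ℝ) : ℂ)) =
          ((11 + 4 * ‖z‖ ^ 2 : ℝ) : ℂ) by push_cast; ring, norm_div, norm_mul, norm_real,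
          Real.norm_of_nonneg (by positivity)]
        simp
      rw [e]
      have h0 := norm_nonneg z
      refine ⟨fun h => lt_of_le_of_ne h1 fun k => by rw [k] at h; norm_num at h, fun h => ?_⟩
      have : ‖z‖ ^ 3 < 1 := pow_lt_one₀ h0 h three_ne_zero
      nlinarith
  refine (comp_le cd.contDiffOn hh ?_).trans_lt ENNReal.ofReal_lt_top
  exact ((en_c.comp (cd.continuous_fderiv one_ne_zero)).continuousOn.integrableOn_compact
    (isCompact_closedBall 0 1)).mono_set (sdiff_subset.trans ball_subset_closedBall)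

end Pool.Agent.H.MP_e277cf_an
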