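import Pool.Agent.H.MP_e277cf_an.B

open Set Filter Topology MeasureTheory Metric Complex
open scoped ContDiff ENNReal Real ComplexConjugate NNReal

namespace Pool.Agent.H.MP_e277cf_an
open Defs Pool.Agent.H.MP_084a52_an

lemma pert {R : ℝ} {h g : ℂ → ℂ} (m1 : MapsTo h (W 1) (W R)) (m2 : MapsTo g (W R) (W 1))
    (iv : InvOn g h (W 1) (W R)) (c1 : ContDiffOn ℝ 1 h (W 1)) (c2 : ContDiffOn ℝ 1 g (W R))
    {φ : ℂ → ℝ} (h1 : ContDiff ℝ ∞ φ) (h2 : HasCompactSupport φ) (h3 : tsupport φ ⊆ W 1) :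
    ∃ δ > 0, ∀ c : ℂ, ‖c‖ < δ → Hom (W 1) (W R) fun z => h z + φ z • c := by
  set ξ : ℂ → ℝ := (W R).indicator fun w => φ (g w) with hξ
  have cK : IsCompact (h '' tsupport φ) := h2.image_of_continuousOn (c1.continuousOn.mono h3)
  have z1 : ∀ w ∉ h '' tsupport φ, ξ w = 0 := fun w hw => by
    by_cases k : w ∈ W R
    · rw [hξ, indicator_of_mem k]
      exact image_eq_zero_of_notMem_tsupport fun j => hw ⟨g w, j, iv.2 k⟩
    · exact indicator_of_notMem k _
  have s1 : ContDiff ℝ 1 ξ := contDiff_iff_contDiffAt.2 fun w => by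
    by_cases k : w ∈ W R
    · have n := (W_open R).mem_nhds k
      refine (((h1.of_le (by simp)).contDiffAt).comp w (c2.contDiffAt n)).congr_of_eventuallyEq ?_
      filter_upwards [n] with y hy using indicator_of_mem hy _
    · refine (contDiffAt_const (c := 0)).congr_of_eventuallyEq ?_
      filter_upwards [cK.isClosed.isOpen_compl.mem_nhds fun ⟨y, y1, y2⟩ => k (y2 ▸ m1 (h3 y1))]
        with y hy using z1 y hy
  obtain ⟨L, hL⟩ := s1.lipschitzWith_of_hasCompactSupport (.intro cK z1) one_ne_zero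
  refine ⟨1 / (L + 1), by positivity, fun c hc => ?_⟩
  have ap : ApproximatesLinearOn (fun w => w + ξ w • c)
      ((ContinuousLinearEquiv.refl ℝ ℂ : ℂ ≃L[ℝ] ℂ) : ℂ →L[ℝ] ℂ) univ (L * ‖c‖₊) := fun x _ y _ => by
    have := hL.dist_le_mul x y
    rw [show x + ξ x • c - (y + ξ y • c) - ((ContinuousLinearEquiv.refl ℝ ℂ : ℂ ≃L[ℝ] ℂ) :
      ℂ →L[ℝ] ℂ) (x - y) = (ξ x - ξ y) • c by simp [sub_smul]; ring, norm_smul]
    rw [dist_eq_norm, dist_eq_norm] at this
    push_cast
    nlinarith [norm_nonneg c]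
  have hc' : Subsingleton ℂ ∨ L * ‖c‖₊ <
      ‖(((ContinuousLinearEquiv.refl ℝ ℂ).symm : ℂ ≃L[ℝ] ℂ) : ℂ →L[ℝ] ℂ)‖₊⁻¹ := by
    right
    have : L * ‖c‖₊ < 1 := by
      rw [← NNReal.coe_lt_coe]
      rw [lt_div_iff₀ (by positivity)] at hc
      push_cast
      nlinarith [norm_nonneg c]
    simpa using! this
  let G := ap.toHomeomorph _ hc'
  have eG : ∀ w, G w = w + ξ w • c := fun _ => rfl
  have fx : ∀ w ∉ W R, G w = w := fun w hw => by rw [eG, hξ, indicator_of_notMem hw]; simp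
  have e : ∀ z ∈ W 1, h z + φ z • c = G (h z) := fun z hz => by
    rw [eG, hξ, indicator_of_mem (m1 hz), iv.1 hz]
  have g1 : MapsTo G (W R) (W R) := fun w hw => by_contra fun k =>
    k (by rwa [G.injective (fx _ k)])
  have g2 : MapsTo G.symm (W R) (W R) := fun w hw => by_contra fun k =>
    k (by rwa [← fx _ k, G.apply_symm_apply])
  refine ⟨fun w => g (G.symm w), fun z hz => by
      change h z + φ z • c ∈ W R; rw [e z hz]; exact g1 (m1 hz), m2.comp g2,
    ⟨fun z hz => ?_, fun w hw => ?_⟩, c1.continuousOn.add (h1.continuous.smul continuous_const).continuousOn,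
    c2.continuousOn.comp G.symm.continuous.continuousOn g2⟩
  · simp only [e z hz, G.symm_apply_apply, iv.1 hz]
  · exact (e _ (m2 (g2 hw))).trans (by rw [iv.2 (g2 hw), G.apply_symm_apply])

lemma outer {R : ℝ} {h g : ℂ → ℂ} (m1 : MapsTo h (W 1) (W R)) (m2 : MapsTo g (W R) (W 1))
    (iv : InvOn g h (W 1) (W R)) (c1 : ContDiffOn ℝ 1 h (W 1)) (c2 : ContDiffOn ℝ 1 g (W R))
    (hi : IntegrableOn (fun z => en (fderiv ℝ h z)) (W 1))
    (mn : ∀ f, ContDiffOn ℝ 1 f (W 1) → Hom (W 1) (W R) f →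
      IntegrableOn (fun z => en (fderiv ℝ f z)) (W 1) →
      ∫ z in W 1, en (fderiv ℝ h z) ≤ ∫ z in W 1, en (fderiv ℝ f z))
    {φ : ℂ → ℝ} (h1 : ContDiff ℝ ∞ φ) (h2 : HasCompactSupport φ) (h3 : tsupport φ ⊆ W 1) :
    ∫ z in W 1, (fderiv ℝ φ z 1 • fderiv ℝ h z 1 + fderiv ℝ φ z I • fderiv ℝ h z I) = 0 := by
  obtain ⟨δ, δ0, hδ⟩ := pert m1 m2 iv c1 c2 h1 h2 h3
  have mo := (W_open 1).measurableSet
  have c := c1.continuousOn_fderiv_of_isOpen (W_open 1) le_rfl
  have cφ := h1.continuous_fderiv (by simp)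
  have i1 : ∀ v, IntegrableOn (fun z => fderiv ℝ φ z v • fderiv ℝ h z v) (W 1) := fun v =>
    intO (W_open 1) ((c.clm_apply continuousOn_const).locallyIntegrableOn mo)
      (cφ.clm_apply continuous_const) h2 h3 (tsupport_fderiv_apply_subset ℝ v)
  have i2 : ∀ v, Integrable (fun z => fderiv ℝ φ z v ^ 2) := fun v => by
    simp only [sq]
    exact ((cφ.clm_apply continuous_const).mul (cφ.clm_apply continuous_const)).integrable_of_hasCompactSupport
      (h2.fderiv_apply ℝ v).mul_left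
  set X : ℂ → ℂ := fun z => fderiv ℝ φ z 1 • fderiv ℝ h z 1 + fderiv ℝ φ z I • fderiv ℝ h z I
  set Y : ℂ → ℝ := fun z => fderiv ℝ φ z 1 ^ 2 + fderiv ℝ φ z I ^ 2
  have iX : IntegrableOn X (W 1) := (i1 1).add (i1 I)
  have iY : IntegrableOn Y (W 1) := ((i2 1).add (i2 I)).integrableOn
  have key : ∀ c : ℂ, ‖c‖ < δ → 0 ≤ 2 * (conj c * ∫ z in W 1, X z).re + ‖c‖ ^ 2 * ∫ z in W 1, Y z :=
    fun c hc => by
    have e : ∀ z ∈ W 1, en (fderiv ℝ (fun z => h z + φ z • c) z) =
        en (fderiv ℝ h z) + (2 * (conj c * X z).re + ‖c‖ ^ 2 * Y z) := fun z hz => by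
      have d := (((c1.differentiableOn one_ne_zero).differentiableAt
        ((W_open 1).mem_nhds hz)).hasFDerivAt.add
        ((h1.differentiable (by simp) z).hasFDerivAt.smul_const c)).fderiv
      rw [show (fun z => h z + φ z • c) = h + fun z => φ z • c from rfl, d]
      simp only [en, X, Y, ← normSq_eq_norm_sq]
      simp [normSq_apply]; ring
    have j1 : IntegrableOn (fun z => 2 * (conj c * X z).re) (W 1) := (iX.const_mul _).re.const_mul 2
    have j2 : IntegrableOn (fun z => 2 * (conj c * X z).re + ‖c‖ ^ 2 * Y z) (W 1) :=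
      j1.add (iY.const_mul (‖c‖ ^ 2))
    have := mn (fun z => h z + φ z • c) (c1.add ((h1.of_le (by simp)).smul contDiff_const).contDiffOn) (hδ c hc)
      ((hi.add j2).congr_fun (fun z hz => (e z hz).symm) mo)
    rw [setIntegral_congr_fun mo e, integral_add hi j2, integral_add j1 (iY.const_mul _),
      integral_const_mul, integral_const_mul, le_add_iff_nonneg_right] at this
    have r : ∫ z in W 1, (conj c * X z).re = (conj c * ∫ z in W 1, X z).re := by
      rw [← integral_const_mul]; exact integral_re (iX.const_mul _)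
    rwa [r] at this
  generalize ∫ z in W 1, X z = Z at key
  generalize ∫ z in W 1, Y z = y at key
  by_contra hZ
  have n : 0 < ‖Z‖ := norm_pos_iff.2 hZ
  have t1 : ∀ᶠ t : ℝ in 𝓝[>] 0, t * ‖Z‖ < δ ∧ t * y < 2 := mem_nhdsWithin_of_mem_nhds
    (((by fun_prop : Continuous fun t : ℝ => t * ‖Z‖).continuousAt.eventually_lt continuousAt_const
      (by simpa using δ0)).and ((by fun_prop : Continuous fun t : ℝ => t * y).continuousAt.eventually_lt
      continuousAt_const (by simp)))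
  obtain ⟨t, ⟨a1, a2⟩, a3⟩ := (t1.and self_mem_nhdsWithin).exists
  have a3 : 0 < t := a3
  have e : ‖-(t : ℂ) * Z‖ = t * ‖Z‖ := by simp [abs_of_pos a3]
  have := key (-t * Z) (e ▸ a1)
  rw [e, map_mul, mul_assoc, conj_mul'] at this
  simp only [conj_ofReal, ← ofReal_pow, ← ofReal_neg, ← ofReal_mul, ofReal_re] at this
  have : 0 < t * ‖Z‖ ^ 2 := by positivity
  nlinarith

lemma sym {h : ℂ → ℂ} (c1 : ContDiffOn ℝ 1 h (W 1)) {φ : ℂ → ℝ} (h1 : ContDiff ℝ ∞ φ)
    (h2 : HasCompactSupport φ) (h3 : tsupport φ ⊆ W 1) :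
    ∫ z in W 1, fderiv ℝ φ z 1 • fderiv ℝ h z I = ∫ z in W 1, fderiv ℝ φ z I • fderiv ℝ h z 1 := by
  have s : ∀ v, ContDiff ℝ ∞ fun z => fderiv ℝ φ z v := fun v =>
    (h1.fderiv_right (m := ∞) le_rfl).clm_apply contDiff_const
  have k := fun v w => wk (W_open 1) c1 (s v) (h2.fderiv_apply ℝ v)
    ((tsupport_fderiv_apply_subset ℝ v).trans h3) w
  rw [← neg_inj, ← k, ← k]
  congr 1
  ext z
  have d : DifferentiableAt ℝ (fderiv ℝ φ) z :=
    (h1.fderiv_right (m := 1) (by norm_cast)).differentiable one_ne_zero z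
  rw [fderiv_clm_apply d (differentiableAt_const _), fderiv_clm_apply d (differentiableAt_const _)]
  simp [(h1.contDiffAt (x := z)).isSymmSndFDerivAt (by simp; norm_cast) |>.eq 1 I]

lemma holo {h : ℂ → ℂ} (c1 : ContDiffOn ℝ 1 h (W 1))
    (H : ∀ φ : ℂ → ℝ, ContDiff ℝ ∞ φ → HasCompactSupport φ → tsupport φ ⊆ W 1 →
      ∫ z in W 1, (fderiv ℝ φ z 1 • fderiv ℝ h z 1 + fderiv ℝ φ z I • fderiv ℝ h z I) = 0) :
    DifferentiableOn ℂ (fun z => uu (fderiv ℝ h z)) (W 1) ∧
      DifferentiableOn ℂ (fun z => vv (fderiv ℝ h z)) (W 1) := by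
  have mo := (W_open 1).measurableSet
  have c := c1.continuousOn_fderiv_of_isOpen (W_open 1) le_rfl
  have key : ∀ T : ℂ →L[ℝ] ℂ, DifferentiableOn ℂ
      (fun z => (T (fderiv ℝ h z 1) - I * T (fderiv ℝ h z I)) / 2) (W 1) := fun T => by
    refine DifferentiableOn.div_const (weyl (W_open 1)
      (f := fun z => T (fderiv ℝ h z 1) - I * T (fderiv ℝ h z I)) ((T.continuous.comp_continuousOn
      (c.clm_apply continuousOn_const)).sub (continuousOn_const.mul (T.continuous.comp_continuousOn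
      (c.clm_apply continuousOn_const)))) fun φ h1 h2 h3 => ?_) 2
    have i1 : ∀ v w, IntegrableOn (fun z => fderiv ℝ φ z v • fderiv ℝ h z w) (W 1) := fun v w =>
      intO (W_open 1) ((c.clm_apply continuousOn_const).locallyIntegrableOn mo)
        ((h1.continuous_fderiv (by simp)).clm_apply continuous_const) h2 h3
        (tsupport_fderiv_apply_subset ℝ v)
    have e : ∀ v, ∫ z in W 1, fderiv ℝ φ z v • (T (fderiv ℝ h z 1) - I * T (fderiv ℝ h z I)) =
        T (∫ z in W 1, fderiv ℝ φ z v • fderiv ℝ h z 1) -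
          I * T (∫ z in W 1, fderiv ℝ φ z v • fderiv ℝ h z I) := fun v => by
      rw [← T.integral_comp_comm (i1 v 1), ← T.integral_comp_comm (i1 v I), ← integral_const_mul,
        ← integral_sub (T.integrable_comp (i1 v 1)) ((T.integrable_comp (i1 v I)).const_mul _)]
      simp only [map_smul, smul_sub, mul_smul_comm]
    have a := H φ h1 h2 h3
    rw [integral_add (i1 1 1) (i1 I I), add_eq_zero_iff_neg_eq] at a
    rw [e, e, sym c1 h1 h2 h3, ← a, map_neg, smul_eq_mul]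
    linear_combination (T (∫ z in W 1, fderiv ℝ φ z I • fderiv ℝ h z 1)) * I_mul_I
  exact ⟨key (.id ℝ ℂ), key conjCLE⟩

end Pool.Agent.H.MP_e277cf_an
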