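import Pool.Agent.H.MP_e277cf_an.C

open Set Filter Topology MeasureTheory Metric Complex
open scoped ContDiff ENNReal Real ComplexConjugate NNReal

namespace Pool.Agent.H.MP_e277cf_an
open Defs Pool.Agent.H.MP_084a52_an

noncomputable def ex (n : ℕ) (l : ℂ) (t : ℝ) (z : ℂ) : ℂ :=
  exp (t * (l * conj z ^ (n + 1) - conj l * z ^ (n + 1) - (l - conj l) * (1 / 2) ^ (n + 1)))
noncomputable def Ps (n : ℕ) (l : ℂ) (t : ℝ) (z : ℂ) : ℂ := z * ex n l t z
noncomputable def pp (n : ℕ) (l : ℂ) (t : ℝ) (z : ℂ) : ℂ :=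
  ex n l t z * (1 - t * conj l * (n + 1) * z ^ (n + 1))
noncomputable def qq (n : ℕ) (l : ℂ) (t : ℝ) (z : ℂ) : ℂ := ex n l t z * (z * l * (n + 1) * conj z ^ n)
noncomputable def ka (n : ℕ) (l : ℂ) (z : ℂ) : ℂ := l * (n + 1) * (z * conj z ^ n)

lemma ex_n (n : ℕ) (l : ℂ) (t : ℝ) (z : ℂ) : ‖ex n l t z‖ = 1 := by
  have h1 : (l * conj z ^ (n + 1) - conj l * z ^ (n + 1)).re = 0 := by
    rw [show conj l * z ^ (n + 1) = conj (l * conj z ^ (n + 1)) by simp, sub_re, conj_re, sub_self]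
  have h2 : ((l - conj l) * (1 / 2) ^ (n + 1)).re = 0 := by
    rw [show (1 / 2 : ℂ) ^ (n + 1) = ((1 / 2) ^ (n + 1) : ℝ) by simp, mul_comm, re_ofReal_mul]; simp
  rw [ex, norm_exp, re_ofReal_mul, sub_re, h1, h2]; simp

lemma Ps_cd (n : ℕ) (l : ℂ) (t : ℝ) : ContDiff ℝ 1 (Ps n l t) := by
  have : ContDiff ℝ 1 (fun z : ℂ => conj z) := conjCLE.contDiff
  unfold Ps ex
  fun_prop

lemma Ps_d (n : ℕ) (l : ℂ) (t : ℝ) (z w : ℂ) :
    fderiv ℝ (Ps n l t) z w = pp n l t z * w + t * qq n l t z * conj w := by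
  have := (hasFDerivAt_id z).mul ((((((conjCLE.hasFDerivAt (x := z)).pow (n + 1)).const_mul l).sub
    (((hasFDerivAt_id z).pow (n + 1)).const_mul (conj l))).sub_const
      ((l - conj l) * (1 / 2) ^ (n + 1))).const_mul (t : ℂ)).cexp
  rw [(this.congr_of_eventuallyEq (f₁ := Ps n l t) (.of_forall fun z => by simp [Ps, ex])).fderiv]
  simp [pp, qq, ex]; ring

lemma small (n : ℕ) (l : ℂ) {ε : ℝ} (hε : 0 < ε) : ∃ t > 0, ∀ z ∈ closedBall (0 : ℂ) 1,
    ‖pp n l t z - 1‖ + ‖t * qq n l t z‖ < 1 / 2 ∧ 0 < ‖pp n l t z‖ ^ 2 - ‖t * qq n l t z‖ ^ 2 ∧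
    2 * t * ‖qq n l t z‖ ^ 2 + 2 * ‖pp n l t z * qq n l t z -
      (‖pp n l t z‖ ^ 2 - ‖t * qq n l t z‖ ^ 2 : ℝ) * ka n l (Ps n l t z)‖ <
      ε * (‖pp n l t z‖ ^ 2 - ‖t * qq n l t z‖ ^ 2) := by
  have c0 : Continuous fun x : ℝ × ℂ => ex n l x.1 x.2 := by unfold ex; fun_prop
  have c1 : Continuous fun x : ℝ × ℂ => pp n l x.1 x.2 := by unfold pp; fun_prop
  have c2 : Continuous fun x : ℝ × ℂ => qq n l x.1 x.2 := by unfold qq; fun_prop
  have c3 : Continuous fun x : ℝ × ℂ => ka n l (Ps n l x.1 x.2) := by unfold ka Ps; fun_prop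
  have := (isCompact_closedBall (0 : ℂ) 1).eventually_forall_of_forall_eventually (x₀ := (0 : ℝ))
    (P := fun t z => ‖pp n l t z - 1‖ + ‖t * qq n l t z‖ < 1 / 2 ∧
      0 < ‖pp n l t z‖ ^ 2 - ‖t * qq n l t z‖ ^ 2 ∧
    2 * t * ‖qq n l t z‖ ^ 2 + 2 * ‖pp n l t z * qq n l t z -
      (‖pp n l t z‖ ^ 2 - ‖t * qq n l t z‖ ^ 2 : ℝ) * ka n l (Ps n l t z)‖ <
      ε * (‖pp n l t z‖ ^ 2 - ‖t * qq n l t z‖ ^ 2)) fun z _ => by
      refine (ContinuousAt.eventually_lt (by fun_prop) continuousAt_const ?_).and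
        ((ContinuousAt.eventually_lt continuousAt_const (by fun_prop) ?_).and
        (ContinuousAt.eventually_lt (by fun_prop) (by fun_prop) ?_))
      · simp [pp, ex]
      · simp [pp, ex]
      · have : z * l * (n + 1) * conj z ^ n - l * (n + 1) * (z * conj z ^ n) = 0 := by ring
        simpa [pp, qq, ex, ka, Ps, this] using hε
  obtain ⟨t, h1, h2⟩ := ((this.filter_mono (nhdsWithin_le_nhds (s := Ioi 0))).and
    self_mem_nhdsWithin).exists
  exact ⟨t, h2, h1⟩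

lemma uv_le (A : ℂ →L[ℝ] ℂ) : ‖uu A * vv A‖ ≤ en A / 4 := by
  rw [norm_mul, en_eq]; nlinarith [sq_nonneg (‖uu A‖ - ‖vv A‖)]

lemma inner {R : ℝ} {h : ℂ → ℂ} (hh : Hom (W 1) (W R) h) (c1 : ContDiffOn ℝ 1 h (W 1))
    (hi : IntegrableOn (fun z => en (fderiv ℝ h z)) (W 1))
    (mn : ∀ f, ContDiffOn ℝ 1 f (W 1) → Hom (W 1) (W R) f →
      IntegrableOn (fun z => en (fderiv ℝ f z)) (W 1) →
      ∫ z in W 1, en (fderiv ℝ h z) ≤ ∫ z in W 1, en (fderiv ℝ f z)) (n : ℕ) :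
    IntegrableOn (fun z => uu (fderiv ℝ h z) * vv (fderiv ℝ h z) * (z * conj z ^ n)) (W 1) ∧
    ∫ z in W 1, uu (fderiv ℝ h z) * vv (fderiv ℝ h z) * (z * conj z ^ n) = 0 := by
  have mo := (W_open 1).measurableSet
  have c := c1.continuousOn_fderiv_of_isOpen (W_open 1) le_rfl
  set X : ℂ → ℂ := fun z => uu (fderiv ℝ h z) * vv (fderiv ℝ h z) * (z * conj z ^ n) with hX
  have iX : IntegrableOn X (W 1) := by
    refine (hi.div_const 4).mono' (ContinuousOn.aestronglyMeasurable ?_ mo)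
      ((ae_restrict_mem mo).mono fun z hz => ?_)
    · have a : Continuous fun A => uu A * vv A := by unfold uu vv; fun_prop
      exact (a.comp_continuousOn c).mul (by fun_prop)
    · have a := (mem_ball_zero_iff.1 hz.1).le
      rw [hX, norm_mul]
      refine (mul_le_of_le_one_right (norm_nonneg _) ?_).trans (uv_le _)
      rw [norm_mul, norm_pow, norm_conj]
      exact mul_le_one₀ a (by positivity) (pow_le_one₀ (norm_nonneg _) a)
  refine ⟨iX, ?_⟩
  have key : ∀ (l : ℂ) (ε : ℝ), 0 < ε →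
      0 ≤ 8 * (l * (n + 1) * ∫ z in W 1, X z).re + ε * ∫ z in W 1, en (fderiv ℝ h z) :=
    fun l ε hε => by
    obtain ⟨t, t0, ht⟩ := small n l hε
    have cd := Ps_cd n l t
    have dP := fun z => (cd.differentiable one_ne_zero z).hasFDerivAt
    have nP : ∀ z, ‖Ps n l t z‖ = ‖z‖ := fun z => by rw [Ps, norm_mul, ex_n, mul_one]
    obtain ⟨k, k1, k2, k3, k4, k5⟩ : Hom (W 1) (W 1) (Ps n l t) :=
      near (c := 1 / 2) (by norm_num) dP (Ps_d n l t)
        (fun z hz => (ht z (ball_subset_closedBall hz)).1.le) (fun z _ => by rw [nP])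
        (by simp [Ps]) (by simp [Ps, ex, map_ofNat, sub_mul])
    obtain ⟨g, g1, g2, g3, g4, g5⟩ := hh
    have bj := k3.bijOn k1 k2
    set G : ℂ → ℝ := fun w => en (fderiv ℝ h w) +
      t * (8 * (l * (n + 1) * X w).re + ε * en (fderiv ℝ h w)) with hG
    have j1 : IntegrableOn (fun w => 8 * (l * (n + 1) * X w).re) (W 1) :=
      (iX.const_mul _).re.const_mul 8
    have j2 : IntegrableOn (fun w => 8 * (l * (n + 1) * X w).re + ε * en (fderiv ℝ h w)) (W 1) :=
      j1.add (hi.const_mul ε)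
    have iG : IntegrableOn G (W 1) := hi.add (j2.const_mul t)
    have i3 := (integrableOn_image_iff_integrableOn_abs_det_fderiv_smul volume mo
      (fun z _ => (dP z).hasFDerivWithinAt) bj.injOn G).1 (bj.image_eq.symm ▸ iG)
    have e3 := integral_image_eq_integral_abs_det_fderiv_smul volume mo
      (fun z _ => (dP z).hasFDerivWithinAt) bj.injOn G
    rw [bj.image_eq] at e3
    have cf : ContDiffOn ℝ 1 (h ∘ Ps n l t) (W 1) := c1.comp cd.contDiffOn k1
    have pt : ∀ z ∈ W 1, en (fderiv ℝ (h ∘ Ps n l t) z) ≤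
        |(fderiv ℝ (Ps n l t) z).det| • G (Ps n l t z) := fun z hz => by
      obtain ⟨-, a2, a3⟩ := ht z (ball_subset_closedBall hz.1)
      rw [fderiv_comp z ((c1.differentiableOn one_ne_zero).differentiableAt
        ((W_open 1).mem_nhds (k1 hz))) (dP z).differentiableAt, en_comp _ _ (Ps_d n l t z),
        det_pq _ (Ps_d n l t z), abs_of_pos a2, smul_eq_mul, hG, hX]
      have b1 := uv_le (fderiv ℝ h (Ps n l t z))
      have b0 := en0 (fderiv ℝ h (Ps n l t z))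
      have b2 : ‖(t : ℂ) * qq n l t z‖ ^ 2 = t ^ 2 * ‖qq n l t z‖ ^ 2 := by
        rw [norm_mul, mul_pow, norm_real, Real.norm_eq_abs, sq_abs]
      simp only
      generalize en (fderiv ℝ h (Ps n l t z)) = E at *
      generalize uu (fderiv ℝ h (Ps n l t z)) * vv (fderiv ℝ h (Ps n l t z)) = φ at *
      set J := ‖pp n l t z‖ ^ 2 - ‖(t : ℂ) * qq n l t z‖ ^ 2 with hJ
      set D := pp n l t z * qq n l t z - J * ka n l (Ps n l t z) with hD
      have b3 : (φ * (pp n l t z * (t * qq n l t z))).re =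
          t * (J * (l * (n + 1) * (φ * (Ps n l t z * conj (Ps n l t z) ^ n))).re + (φ * D).re) := by
        rw [← re_ofReal_mul, ← add_re, ← re_ofReal_mul, hD, ka]
        congr 1; ring
      have b4 : (φ * D).re ≤ E / 4 * ‖D‖ :=
        (re_le_norm _).trans (by rw [norm_mul]; gcongr)
      have b5 : ‖pp n l t z‖ ^ 2 + ‖(t : ℂ) * qq n l t z‖ ^ 2 = J + 2 * (t ^ 2 * ‖qq n l t z‖ ^ 2) := by
        rw [hJ, b2]; ring
      rw [b3, b5]
      have b6 := mul_le_mul_of_nonneg_left a3.le (mul_nonneg t0.le b0)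
      have b7 := mul_le_mul_of_nonneg_left b4 t0.le
      nlinarith
    have i4 : IntegrableOn (fun z => en (fderiv ℝ (h ∘ Ps n l t) z)) (W 1) :=
      i3.mono' ((en_c.comp_continuousOn (cf.continuousOn_fderiv_of_isOpen (W_open 1)
        le_rfl)).aestronglyMeasurable mo) ((ae_restrict_mem mo).mono fun z hz => by
          rw [Real.norm_of_nonneg (en0 _)]; exact pt z hz)
    have := (mn _ cf ⟨k ∘ g, g1.comp k1, k2.comp g2, ⟨fun z hz => by
      simp only [Function.comp, g3.1 (k1 hz), k3.1 hz], fun w hw => by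
      simp only [Function.comp, k3.2 (g2 hw), g3.2 hw]⟩, cf.continuousOn, k5.comp g5 g2⟩ i4).trans
      (setIntegral_mono_on i4 i3 mo pt)
    rw [← e3, hG, integral_add hi (j2.const_mul t), le_add_iff_nonneg_right, integral_const_mul,
      integral_add j1 (hi.const_mul ε), integral_const_mul, integral_const_mul] at this
    have r : ∫ z in W 1, (l * (n + 1) * X z).re = (l * (n + 1) * ∫ z in W 1, X z).re := by
      rw [← integral_const_mul]; exact integral_re (iX.const_mul _)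
    rw [r] at this
    exact (mul_nonneg_iff_of_pos_left t0).1 this
  generalize ∫ z in W 1, X z = Z at key
  generalize ∫ z in W 1, en (fderiv ℝ h z) = E at key
  by_contra hZ
  have n0 : 0 < ‖Z‖ ^ 2 := by positivity
  have := key (-conj Z) (‖Z‖ ^ 2 / (|E| + 1)) (by positivity)
  rw [show -conj Z * (n + 1) * Z = ((-(n + 1) * ‖Z‖ ^ 2 : ℝ) : ℂ) by
    push_cast; rw [← conj_mul']; ring, ofReal_re] at this
  have a : ‖Z‖ ^ 2 / (|E| + 1) * E ≤ ‖Z‖ ^ 2 := by
    rw [div_mul_eq_mul_div, div_le_iff₀ (by positivity)]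
    nlinarith [le_abs_self E]
  have : (0 : ℝ) ≤ n := n.cast_nonneg
  nlinarith

end Pool.Agent.H.MP_e277cf_an
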