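import Pool.Agent.H.MP_e277cf_an.D

open Set Filter Topology MeasureTheory Metric Complex
open scoped ContDiff ENNReal Real ComplexConjugate NNReal

namespace Pool.Agent.H.MP_e277cf_an
open Defs Pool.Agent.H.MP_084a52_an

lemma out_conn {R : ℝ} (hR : 0 < R) :
    IsConnected ((((↑) : ℂ → OnePoint ℂ) '' ball 0 R)ᶜ) := by
  have h1 : IsConnected (ball (0 : ℂ) R)ᶜ := by
    have := (isConnected_Ici (a := (1 : ℝ)).prod (isConnected_sphere (by simp) (0 : ℂ) hR.le)).image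
      (fun p : ℝ × ℂ => p.1 • p.2) (by fun_prop)
    convert this
    ext z
    simp only [mem_compl_iff, mem_ball_zero_iff, not_lt, mem_image, mem_prod, mem_Ici,
      mem_sphere_zero_iff_norm]
    constructor
    · intro h
      have z0 : 0 < ‖z‖ := hR.trans_le h
      refine ⟨(‖z‖ / R, (R / ‖z‖) • z), ⟨(one_le_div hR).2 h, ?_⟩, ?_⟩
      · rw [norm_smul, Real.norm_of_nonneg (by positivity)]; field_simp
      · simp only [smul_smul]
        rw [show ‖z‖ / R * (R / ‖z‖) = 1 by field_simp, one_smul]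
    · rintro ⟨⟨t, w⟩, ⟨h1, h2⟩, rfl⟩
      simp only at h1 h2 ⊢
      rw [norm_smul, h2, Real.norm_of_nonneg (by linarith)]
      nlinarith
  refine (h1.image _ OnePoint.continuous_coe.continuousOn).subset_closure ?_ ?_
  · rintro _ ⟨z, hz, rfl⟩ ⟨w, hw, e⟩
    exact hz (OnePoint.coe_injective e ▸ hw)
  · intro x hx
    induction x with
    | infty =>
      refine mem_closure_of_tendsto OnePoint.tendsto_coe_infty ?_
      filter_upwards [(isCompact_closedBall (0 : ℂ) R).compl_mem_coclosedCompact_of_isClosed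
        isClosed_closedBall] with z hz using ⟨z, fun k => hz (ball_subset_closedBall k), rfl⟩
    | coe z => exact subset_closure ⟨z, fun k => hx ⟨z, k, rfl⟩, rfl⟩

lemma kconn {R : ℝ} (hR : 1 ≤ R) : KConn 3 (W R) := by
  refine ⟨W_open R, W_conn (by linarith), ?_⟩
  let V : Fin 3 → Set (OnePoint ℂ) :=
    ![{((0 : ℂ) : OnePoint ℂ)}, {((1 / 2 : ℂ) : OnePoint ℂ)}, (((↑) : ℂ → OnePoint ℂ) '' ball 0 R)ᶜ]
  have b0 : (0 : ℂ) ∈ ball (0 : ℂ) R := mem_ball_self (by linarith)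
  have b1 : (1 / 2 : ℂ) ∈ ball (0 : ℂ) R := by simp; linarith
  have v1 : ∀ i, IsClosed (V i) := fun i => by
    fin_cases i
    exacts [isClosed_singleton, isClosed_singleton,
      (OnePoint.isOpen_image_coe.2 isOpen_ball).isClosed_compl]
  have v2 : ∀ i, IsConnected (V i) := fun i => by
    fin_cases i
    exacts [isConnected_singleton, isConnected_singleton, out_conn (by linarith)]
  have v3 : ∀ i, V i ⊆ (((↑) : ℂ → OnePoint ℂ) '' W R)ᶜ := fun i => by
    rintro _ hx ⟨z, hz, rfl⟩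
    fin_cases i
    exacts [hz.2 (.inl (OnePoint.coe_injective hx)), hz.2 (.inr (OnePoint.coe_injective hx)),
      hx ⟨z, hz.1, rfl⟩]
  have v4 : Pairwise (Function.onFun Disjoint V) := by
    have a : Disjoint (V 0) (V 1) := by simp [V]
    have b : Disjoint (V 0) (V 2) := disjoint_singleton_left.2 fun k => k ⟨_, b0, rfl⟩
    have c : Disjoint (V 1) (V 2) := disjoint_singleton_left.2 fun k => k ⟨_, b1, rfl⟩
    intro i j h
    fin_cases i <;> fin_cases j
    exacts [(h rfl).elim, a, b, a.symm, (h rfl).elim, c, b.symm, c.symm, (h rfl).elim]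
  let U : Fin 3 → Set ↥((((↑) : ℂ → OnePoint ℂ) '' W R)ᶜ) := fun i => Subtype.val ⁻¹' V i
  have u1 : ⋃ i, U i = univ := by
    rw [iUnion_eq_univ_iff]
    rintro ⟨x, hx⟩
    by_cases k : x ∈ V 2
    · exact ⟨2, k⟩
    · obtain ⟨z, hz, rfl⟩ := not_not.1 k
      rcases not_not.1 fun j => hx ⟨z, ⟨hz, j⟩, rfl⟩ with rfl | rfl
      exacts [⟨0, rfl⟩, ⟨1, rfl⟩]
  have u2 : Pairwise (Function.onFun Disjoint U) := fun i j h => (v4 h).preimage _
  have u3 : ∀ i, IsClosed (U i) := fun i => (v1 i).preimage continuous_subtype_val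
  have u4 : ∀ i, IsClopen (U i) := fun i => ⟨u3 i, by
    rw [← isClosed_compl_iff]
    convert isClosed_iUnion_of_finite fun j : {j // j ≠ i} => u3 j
    ext x
    obtain ⟨j, hj⟩ := iUnion_eq_univ_iff.1 u1 x
    simp only [mem_compl_iff, mem_iUnion]
    exact ⟨fun k => ⟨⟨j, fun e => k (e ▸ hj)⟩, hj⟩, fun ⟨l, hl⟩ k => disjoint_left.1 (u2 l.2) hl k⟩⟩
  have u5 : ∀ i, IsConnected (U i) := fun i => by
    obtain ⟨x, hx⟩ := (v2 i).nonempty
    refine ⟨⟨⟨x, v3 i hx⟩, hx⟩, ?_⟩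
    rw [← IsInducing.subtypeVal.isPreconnected_image, image_preimage_eq_of_subset
      (by rw [Subtype.range_coe]; exact v3 i)]
    exact (v2 i).isPreconnected
  rw [Nat.card_congr (ConnectedComponents.equivOfIsClopenOfIsConnected u4 u2 u1 u5)]
  simp

lemma W_sub : W 1 ⊆ W (5 / 4) := sdiff_subset_sdiff_left (ball_subset_ball (by norm_num))

noncomputable def rh (s : ℝ) (z : ℂ) : ℂ := (s + (1 - s) * min 1 ((4 * ‖z‖ + 1) / (6 * ‖z‖))) • z

lemma rh_mem {R s : ℝ} (h0 : 0 ≤ s) (h1 : s ≤ 1) {z : ℂ} (hz : z ∈ W R) :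
    rh s z ∈ W R ∧ (z ∈ W (5 / 4) → rh 0 z ∈ W 1) := by
  have z0 : 0 < ‖z‖ := norm_pos_iff.2 fun e => hz.2 (.inl e)
  have key : ∀ s, 0 ≤ s → s ≤ 1 → rh s z ∉ ({0, 1 / 2} : Set ℂ) ∧
      ‖rh s z‖ ≤ s * ‖z‖ + (1 - s) * min ‖z‖ ((4 * ‖z‖ + 1) / 6) := fun s h0 h1 => by
    have m0 : 0 < min 1 ((4 * ‖z‖ + 1) / (6 * ‖z‖)) := by positivity
    have m1 : min 1 ((4 * ‖z‖ + 1) / (6 * ‖z‖)) * ‖z‖ = min ‖z‖ ((4 * ‖z‖ + 1) / 6) := by
      rw [min_mul_of_nonneg _ _ z0.le]; congr 1 <;> field_simp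
    have e : ‖rh s z‖ = s * ‖z‖ + (1 - s) * min ‖z‖ ((4 * ‖z‖ + 1) / 6) := by
      rw [rh, norm_smul, Real.norm_of_nonneg (by nlinarith), add_mul, mul_assoc, m1]
    refine ⟨?_, e.le⟩
    by_cases k : ‖z‖ ≤ 1 / 2
    · rw [rh, min_eq_left (by rw [one_le_div (by positivity)]; linarith)]
      simpa using hz.2
    · have : 1 / 2 < min ‖z‖ ((4 * ‖z‖ + 1) / 6) := lt_min (by linarith) (by linarith)
      have m2 := min_le_left ‖z‖ ((4 * ‖z‖ + 1) / 6)
      have : 1 / 2 < ‖rh s z‖ := by rw [e]; nlinarith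
      rintro (j | j)
      · rw [j, norm_zero] at this; linarith
      · rw [mem_singleton_iff.1 j] at this; simp at this
  refine ⟨⟨mem_ball_zero_iff.2 ?_, (key s h0 h1).1⟩, fun k => ⟨mem_ball_zero_iff.2 ?_,
    (key 0 le_rfl zero_le_one).1⟩⟩
  · have := mem_ball_zero_iff.1 hz.1
    nlinarith [(key s h0 h1).2, min_le_left ‖z‖ ((4 * ‖z‖ + 1) / 6)]
  · have := mem_ball_zero_iff.1 k.1
    linarith [(key 0 le_rfl zero_le_one).2, min_le_right ‖z‖ ((4 * ‖z‖ + 1) / 6)]

lemma rh_c {X : Type} [TopologicalSpace X] {R : ℝ} {s : X → ℝ} {z : X → W R} (hs : Continuous s)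
    (hz : Continuous z) : Continuous fun x => rh (s x) (z x) := by
  have : Continuous fun x => (4 * ‖(z x : ℂ)‖ + 1) / (6 * ‖(z x : ℂ)‖) :=
    Continuous.div (by fun_prop) (by fun_prop) fun x =>
      mul_ne_zero (by norm_num) (norm_ne_zero_iff.2 fun e => (z x).2.2 (.inl e))
  unfold rh
  fun_prop

lemma heq : ∃ e : ContinuousMap.HomotopyEquiv (W 1) (W (5 / 4)), ∀ z, (e.toFun z : ℂ) = z := by
  have H : ∀ R (f : C(W R, W R)), (∀ z, (f z : ℂ) = rh 0 z) → f.Homotopic (.id _) := fun R f hf =>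
    ⟨⟨⟨fun x => ⟨rh x.1 x.2, (rh_mem x.1.2.1 x.1.2.2 x.2.2).1⟩,
      (rh_c (by fun_prop) continuous_snd).subtype_mk _⟩,
      fun z => Subtype.ext (hf z).symm, fun z => Subtype.ext (by simp [rh])⟩⟩
  exact ⟨⟨⟨inclusion W_sub, continuous_inclusion _⟩,
    ⟨fun z => ⟨rh 0 z, (rh_mem le_rfl zero_le_one z.2).2 z.2⟩,
      (rh_c continuous_const continuous_id).subtype_mk _⟩,
    H _ _ fun _ => rfl, H _ _ fun _ => rfl⟩, fun _ => rfl⟩

lemma W_conj {R : ℝ} {z : ℂ} (hz : z ∈ W R) : conj z ∈ W R := by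
  refine ⟨by simpa using hz.1, ?_⟩
  rintro (j | j)
  · exact hz.2 (.inl (by simpa using j))
  · exact hz.2 (.inr (by simpa [map_ofNat] using congrArg conj (mem_singleton_iff.1 j)))

lemma conf {h g : ℂ → ℂ} (m1 : MapsTo h (W 1) (W (5 / 4))) (m2 : MapsTo g (W (5 / 4)) (W 1))
    (iv : ∀ w ∈ W (5 / 4), h (g w) = w) (c1 : DifferentiableOn ℝ h (W 1))
    (c2 : DifferentiableOn ℝ g (W (5 / 4))) (hc : ∀ z ∈ W 1, vv (fderiv ℝ h z) = 0) : False := by
  have d1 := fun z hz => c1.differentiableAt ((W_open 1).mem_nhds (x := z) hz)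
  have d2 := fun z hz => c2.differentiableAt ((W_open _).mem_nhds (x := z) hz)
  refine noconf (by norm_num) m1 m2 iv (fun z hz => ?_) fun w hw => ?_
  · refine (differentiableAt_complex_iff_differentiableAt_real.2 ⟨d1 z hz, ?_⟩).differentiableWithinAt
    rw [app2, app2 _ 1, hc z hz]; simp; ring
  · refine (differentiableAt_complex_iff_differentiableAt_real.2 ⟨d2 w hw, ?_⟩).differentiableWithinAt
    have e : fderiv ℝ (h ∘ g) w = fderiv ℝ id w := EventuallyEq.fderiv_eq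
      (mem_of_superset ((W_open _).mem_nhds hw) iv)
    rw [fderiv_comp w (d1 _ (m2 hw)) (d2 w hw), fderiv_id] at e
    have e1 := congrArg (· 1) e
    have e2 := congrArg (· I) e
    simp only [ContinuousLinearMap.comp_apply, ContinuousLinearMap.id_apply] at e1 e2
    rw [app2, hc _ (m2 hw), map_zero, zero_mul, add_zero] at e1 e2
    rw [smul_eq_mul]
    linear_combination (-fderiv ℝ g w I) * e1 + (fderiv ℝ g w 1) * e2

theorem main (h : ℂ → ℂ) (hd : Diffeo (W 1) (W (5 / 4)) h) :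
    En (W 1) (fderiv ℝ h) ≠ EH (W 1) (W (5 / 4)) := by
  intro he
  obtain ⟨g, m1, m2, iv, c1, c2⟩ := hd
  have mo := (W_open 1).measurableSet
  have c := c1.continuousOn_fderiv_of_isOpen (W_open 1) le_rfl
  have hi : IntegrableOn (fun z => en (fderiv ℝ h z)) (W 1) :=
    ⟨(en_c.comp_continuousOn c).aestronglyMeasurable mo,
      (hasFiniteIntegral_iff_ofReal (.of_forall fun _ => en0 _)).2 (he.trans_lt EH_fin)⟩
  have mn : ∀ f, ContDiffOn ℝ 1 f (W 1) → Hom (W 1) (W (5 / 4)) f →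
      IntegrableOn (fun z => en (fderiv ℝ f z)) (W 1) →
      ∫ z in W 1, en (fderiv ℝ h z) ≤ ∫ z in W 1, en (fderiv ℝ f z) := fun f h1 h2 h3 => by
    rw [← ENNReal.ofReal_le_ofReal_iff (integral_nonneg fun _ => en0 _), ← En_eq hi, he]
    exact comp_le h1 h2 h3
  obtain ⟨du, dv⟩ := holo c1 fun φ => outer m1 m2 iv c1 c2 hi mn
  obtain ⟨U, U1, U2⟩ := rem_L2 du (hi.mono' ((du.continuousOn.norm.pow 2).aestronglyMeasurable mo)
    (.of_forall fun z => by
      rw [Real.norm_of_nonneg (by positivity), en_eq]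
      nlinarith [sq_nonneg ‖uu (fderiv ℝ h z)‖, sq_nonneg ‖vv (fderiv ℝ h z)‖]))
  obtain ⟨V, V1, V2⟩ := rem_L2 dv (hi.mono' ((dv.continuousOn.norm.pow 2).aestronglyMeasurable mo)
    (.of_forall fun z => by
      rw [Real.norm_of_nonneg (by positivity), en_eq]
      nlinarith [sq_nonneg ‖uu (fderiv ℝ h z)‖, sq_nonneg ‖vv (fderiv ℝ h z)‖]))
  have dF : DifferentiableOn ℂ (fun z => U z * V z * z) (ball 0 1) := (U1.mul V1).mul differentiableOn_id
  have z1 : ∀ n, iteratedDeriv n (fun z => U z * V z * z) 0 = 0 := fun n => by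
    obtain ⟨a1, a2⟩ := inner ⟨g, m1, m2, iv, c1.continuousOn, c2.continuousOn⟩ c1 hi mn n
    have e : EqOn (fun z => uu (fderiv ℝ h z) * vv (fderiv ℝ h z) * (z * conj z ^ n))
        (fun z => U z * V z * z * conj (z - 0) ^ n) (W 1) := fun z hz => by
      simp only [U2 hz, V2 hz, sub_zero, mul_assoc]
    have := disc n one_pos dF ((a1.congr_fun e mo).congr_set_ae (W_ae 1).symm)
    rw [← setIntegral_congr_set (W_ae 1), ← setIntegral_congr_fun mo e, a2] at this
    have n1 : (n : ℂ) + 1 ≠ 0 := by exact_mod_cast n.succ_ne_zero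
    simpa [n1, n.factorial_ne_zero] using this
  have aF := dF.analyticOnNhd isOpen_ball
  have z2 : EqOn (fun z => U z * V z * z) 0 (ball 0 1) := by
    refine aF.eqOn_zero_of_preconnected_of_eventuallyEq_zero (convex_ball 0 1).isPreconnected
      (mem_ball_self one_pos) ?_
    have := (aF 0 (mem_ball_self one_pos)).hasFPowerSeriesAt
    simp only [z1, zero_div] at this
    refine (HasFPowerSeriesAt.locally_zero_iff this).2 ?_
    ext n; simp
  have z3 : ∀ z ∈ W 1, uu (fderiv ℝ h z) * vv (fderiv ℝ h z) = 0 := fun z hz => by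
    have := z2 hz.1
    simp only [U2 hz, V2 hz, Pi.zero_apply] at this
    exact (mul_eq_zero.1 this).resolve_right fun e => hz.2 (.inl e)
  have d1 := c1.differentiableOn one_ne_zero
  have d2 := c2.differentiableOn one_ne_zero
  rcases (du.analyticOnNhd (W_open 1)).eq_zero_or_eq_zero_of_mul_eq_zero
    (dv.analyticOnNhd (W_open 1)) z3 (W_conn one_pos).isPreconnected with k | k
  · refine conf (h := conjCLE ∘ h) (g := g ∘ conjCLE) (fun z hz => W_conj (m1 hz))
      (fun z hz => m2 (W_conj hz)) (fun w hw => by simp [iv.2 (W_conj hw)])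
      (conjCLE.differentiable.comp_differentiableOn d1)
      (d2.comp conjCLE.differentiableOn fun z hz => W_conj hz) fun z hz => ?_
    rw [conjCLE.comp_fderiv, ← k z hz]
    simp [uu, vv]
  · exact conf m1 m2 iv.2 d1 d2 k

end Pool.Agent.H.MP_e277cf_an
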